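import Pool.Agent.Y677.RSZ.FinInst

set_option autoImplicit false

/-!
# Primes and almost primes between `x` and `x + √x` lie in narrow progressions

Whatever the set `S` of primes, all elements of `S` in `(x, x + √x)`, with at most `ε √x / log x` exceptions (an
arbitrarily small proportion of the expected number of primes there), are terms of `l`-term arithmetic progressions
contained in `S ∩ (x, x + √x)` whose difference is at most a fixed power of `log x`. The same holds for sets of natural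
numbers without prime factors up to a small power, and there are at least `κ √x / log x` of these with a bounded number
of prime factors in `(x, x + √x)`, for every large real number `x`.
-/

namespace Pool.Agent.Results.MP_b8a134_nt.NarrowProgressions

open Finset Filter

/-- `n` lies between `x` and `x + √x`, both excluded -/
def Between (x : ℝ) (n : ℕ) : Prop := x < n ∧ (n : ℝ) < x + √x

/-- `n` is a term of an `l`-term arithmetic progression with difference at most `D`, all of whose terms belong to `S`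
and lie between `x` and `x + √x` -/
def OnProgression (S : Set ℕ) (l : ℕ) (D x : ℝ) (n : ℕ) : Prop :=
  ∃ m d : ℕ, 1 ≤ d ∧ (d : ℝ) ≤ D ∧ (∀ i < l, m + i * d ∈ S ∧ Between x (m + i * d)) ∧ ∃ i < l, n = m + i * d

/-- all elements of `S` between `x` and `x + √x`, with at most `t` exceptions, are terms of such progressions -/
def NearlyAll (S : Set ℕ) (l : ℕ) (D x t : ℝ) : Prop :=
  ({n : ℕ | Between x n ∧ n ∈ S ∧ ¬ OnProgression S l D x n}.ncard : ℝ) ≤ t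

/-- all prime factors of `n ≥ 2` are larger than `n ^ (1 / r)` -/
def Rough (r n : ℕ) : Prop :=
  2 ≤ n ∧ ∀ p : ℕ, p.Prime → p ∣ n → (n : ℝ) ^ (1 / (r : ℝ)) < p

section aux

/-- the integers between `x` and `x + √x` are those of `(⌊x⌋, ⌊x⌋ + Y]` -/
lemma between_iff {x : ℝ} (hx : 4 ≤ x) : ∃ Y : ℕ, √x - 1 ≤ Y ∧ (Y : ℝ) ≤ √x + 1 ∧
    ∀ n : ℕ, Between x n ↔ ⌊x⌋₊ < n ∧ n ≤ ⌊x⌋₊ + Y := by
  have hx0 : 0 ≤ x := by linarith
  have hs : 2 ≤ √x := Real.le_sqrt_of_sq_le (by linarith)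
  have h1 : (⌊x⌋₊ : ℝ) ≤ x := Nat.floor_le hx0
  have h2 : x < ⌊x⌋₊ + 1 := Nat.lt_floor_add_one x
  have h3 : x + √x ≤ ⌈x + √x⌉₊ := Nat.le_ceil _
  have h4 : (⌈x + √x⌉₊ : ℝ) < x + √x + 1 := Nat.ceil_lt_add_one (by positivity)
  have h5 : ⌊x⌋₊ + 1 ≤ ⌈x + √x⌉₊ := by
    have : ((⌊x⌋₊ + 1 : ℕ) : ℝ) ≤ (⌈x + √x⌉₊ : ℝ) := by push_cast; linarith
    exact_mod_cast this
  refine ⟨⌈x + √x⌉₊ - 1 - ⌊x⌋₊, ?_, ?_, ?_⟩
  · rw [Nat.cast_sub (by omega), Nat.cast_sub (by omega)]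
    push_cast
    linarith
  · rw [Nat.cast_sub (by omega), Nat.cast_sub (by omega)]
    push_cast
    linarith
  · intro n
    unfold Between
    rw [← Nat.floor_lt hx0]
    refine and_congr_right fun _ => ?_
    rw [← Nat.lt_ceil]
    omega

lemma prime_rough (r : ℕ) (hr : 2 ≤ r) (n : ℕ) (h : n.Prime) : Rough r n := by
  refine ⟨h.two_le, fun p hp hd => ?_⟩
  have h1 : p = n := (Nat.prime_dvd_prime_iff_eq hp h).1 hd
  subst h1
  exact Pool.Agent.TH977.PW.rpow_lt_of_le r p p hr h.two_le le_rfl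

lemma val (m : ℕ) : (((1 : ℕ) : ℤ) * (m : ℤ) + 0) = (m : ℤ) := by push_cast; ring

end aux

open Classical in
lemma out_eq (S : Set ℕ) (l : ℕ) (D : ℝ) {x : ℝ} {Y : ℕ}
    (hY : ∀ n : ℕ, Between x n ↔ ⌊x⌋₊ < n ∧ n ≤ ⌊x⌋₊ + Y) :
    ({n : ℕ | Between x n ∧ n ∈ S ∧ ¬ OnProgression S l D x n}.ncard : ℝ) =
      (Pool.Agent.TH977.PW.N (Pool.Agent.Y677.RSZ.Outside S l D ⌊x⌋₊ (⌊x⌋₊ + Y)) ⌊x⌋₊ (⌊x⌋₊ + Y) : ℝ) := by
  have hO : ∀ n, OnProgression S l D x n ↔ (∃ m d : ℕ, 1 ≤ d ∧ (d : ℝ) ≤ D ∧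
      (∀ i < l, m + i * d ∈ S ∧ ⌊x⌋₊ < m + i * d ∧ m + i * d ≤ ⌊x⌋₊ + Y) ∧ ∃ i < l, n = m + i * d) := by
    intro n
    unfold OnProgression
    simp only [hY]
  unfold Pool.Agent.TH977.PW.N
  rw [← Set.ncard_coe_finset]
  congr 2
  ext n
  rw [mem_coe, mem_filter, mem_Ioc]
  constructor
  · rintro ⟨h1, h2, h3⟩
    rw [hO] at h3
    exact ⟨(hY n).1 h1, h2, h3⟩
  · rintro ⟨h1, h2, h3⟩
    refine ⟨(hY n).2 h1, h2, ?_⟩
    rw [hO]
    exact h3

/-- the parameters -/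
lemma params : ∀ᶠ x : ℝ in atTop, 4 ≤ x ∧ (1 / 2) * Real.log x ≤ Real.log ⌊x⌋₊ ∧ Real.log ⌊x⌋₊ ≤ Real.log x ∧
    1 ≤ Real.log ⌊x⌋₊ ∧
    (∀ Y : ℕ, √x - 1 ≤ Y → (Y : ℝ) ≤ √x + 1 → (⌊x⌋₊ : ℝ) ^ ((1 : ℝ) / 3) ≤ Y ∧ 2 * Y ≤ ⌊x⌋₊) := by
  filter_upwards [eventually_ge_atTop (10 ^ 6 : ℝ)] with x hx
  have hx0 : 0 ≤ x := by linarith
  have h1 : (⌊x⌋₊ : ℝ) ≤ x := Nat.floor_le hx0
  have h2 : x < ⌊x⌋₊ + 1 := Nat.lt_floor_add_one x
  have hs : 1000 ≤ √x := Real.le_sqrt_of_sq_le (by norm_num; linarith)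
  have hss : √x * √x = x := Real.mul_self_sqrt hx0
  have hf : √x ≤ ⌊x⌋₊ := by nlinarith
  have hfp : (0 : ℝ) < ⌊x⌋₊ := by linarith
  have hlog : Real.log (√x) = (1 / 2) * Real.log x := by
    rw [Real.log_sqrt hx0]; ring
  refine ⟨by linarith, ?_, Real.log_le_log hfp h1, ?_, ?_⟩
  · rw [← hlog]
    exact Real.log_le_log (by linarith) hf
  · rw [Real.le_log_iff_exp_le hfp]
    have := Real.exp_one_lt_d9
    linarith
  · intro Y hY1 hY2
    constructor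
    · have h3 : (⌊x⌋₊ : ℝ) ^ ((1 : ℝ) / 3) ≤ x ^ ((1 : ℝ) / 3) :=
        Real.rpow_le_rpow hfp.le h1 (by norm_num)
      refine h3.trans (le_trans ?_ hY1)
      have h4 : x ^ ((1 : ℝ) / 3) = (√x) ^ ((2 : ℝ) / 3) := by
        rw [Real.sqrt_eq_rpow, ← Real.rpow_mul hx0]; norm_num
      rw [h4]
      have h5 : (√x) ^ ((2 : ℝ) / 3) = √x * (√x) ^ (-((1 : ℝ) / 3)) := by
        rw [← Real.rpow_one_add' (by linarith) (by norm_num)]; norm_num
      rw [h5]
      have h6 : (√x) ^ (-((1 : ℝ) / 3)) ≤ 1 / 10 := by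
        have h7 : (√x) ^ (-((1 : ℝ) / 3)) ≤ (1000 : ℝ) ^ (-((1 : ℝ) / 3)) :=
          Real.rpow_le_rpow_of_nonpos (by norm_num) hs (by norm_num)
        have h8 : (1000 : ℝ) ^ (-((1 : ℝ) / 3)) = 1 / 10 := by
          rw [show (1000 : ℝ) = (10 : ℝ) ^ (3 : ℝ) by norm_num, ← Real.rpow_mul (by norm_num)]
          norm_num
        linarith
      have h9 : √x * (√x) ^ (-((1 : ℝ) / 3)) ≤ √x * (1 / 10) := mul_le_mul_of_nonneg_left h6 (by linarith)
      linarith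
    · have h3 : ((2 * Y : ℕ) : ℝ) ≤ (⌊x⌋₊ : ℝ) := by
        push_cast
        nlinarith
      exact_mod_cast h3

/-- **Primes and almost primes between `x` and `x + √x` lie in narrow progressions.** -/
theorem result :
    -- arbitrary sets of primes
    (∀ l : ℕ, 2 ≤ l → ∀ ε : ℝ, 0 < ε → ∃ B : ℕ, ∀ᶠ x : ℝ in atTop, ∀ S : Set ℕ, (∀ p ∈ S, p.Prime) →
      NearlyAll S l (Real.log x ^ B) x (ε * (√x / Real.log x))) ∧
    -- arbitrary sets of numbers without small prime factors, and their number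
    ∃ r₀ : ℕ, ∀ r : ℕ, r₀ ≤ r →
      (∀ l : ℕ, 2 ≤ l → ∀ ε : ℝ, 0 < ε → ∃ B : ℕ, ∀ᶠ x : ℝ in atTop, ∀ S : Set ℕ, (∀ n ∈ S, Rough r n) →
        NearlyAll S l (Real.log x ^ B) x (ε * (√x / Real.log x))) ∧
      ∃ κ : ℝ, 0 < κ ∧ ∀ᶠ x : ℝ in atTop, κ * (√x / Real.log x) ≤
        ({n : ℕ | Between x n ∧ Rough r n ∧ n.primeFactorsList.length ≤ r}.ncard : ℝ) := by
  classical
  obtain ⟨r0, hr0, h⟩ := Pool.Agent.Y677.RSZ.narrow_lin (fun _ : Fin 1 => 1) (fun _ : Fin 1 => (0 : ℤ))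
    (fun _ => one_pos) (fun _ => by rw [Nat.cast_one]; exact isCoprime_one_left)
    (fun _ _ _ _ => Subsingleton.elim _ _)
    (fun p hp => ⟨1, fun _ hd => by
      rw [val] at hd
      exact hp.one_lt.ne' (Nat.dvd_one.1 (by exact_mod_cast hd))⟩)
    (fun r => {n | Rough r n}) (fun r => {n | 2 ≤ n → Rough r n ∧ n.primeFactorsList.length ≤ r}) 1
    (by rw [Fintype.card_fin])
    (fun r m _ hm _ p hp hd => by
      rw [val] at hd
      exact hm.2 p hp (by exact_mod_cast hd))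
    (fun r m _ h1 h2 h3 => ⟨⟨h3, fun p hp hd => h1 0 p hp (by rw [val]; exact_mod_cast hd)⟩, by
      have := h2 0
      rw [val, Int.natAbs_natCast] at this
      exact this⟩) (1 / 3) (by norm_num) (by norm_num)
  have key : ∀ r : ℕ, r0 ≤ r → ∀ l : ℕ, 2 ≤ l → ∀ ε : ℝ, 0 < ε → ∃ B : ℕ, ∀ᶠ x : ℝ in atTop, ∀ S : Set ℕ,
      (∀ n ∈ S, Rough r n) → NearlyAll S l (Real.log x ^ B) x (ε * (√x / Real.log x)) := by
    intro r hr l hl ε hε
    obtain ⟨B, hB⟩ := (h r hr).2 l hl (ε / 4) (by positivity)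
    refine ⟨B, ?_⟩
    filter_upwards [params, tendsto_nat_floor_atTop.eventually hB] with x hx hX S hS
    obtain ⟨h4, hl1, hl2, hl3, hxY⟩ := hx
    obtain ⟨Y, hY1, hY2, hY⟩ := between_iff h4
    obtain ⟨hY3, hY4⟩ := hxY Y hY1 hY2
    have h1 := hX Y hY3 (by omega) S (fun n hn => hS n hn)
    unfold NearlyAll
    have hmono : ({n : ℕ | Between x n ∧ n ∈ S ∧ ¬ OnProgression S l (Real.log x ^ B) x n}.ncard : ℝ) ≤
        ({n : ℕ | Between x n ∧ n ∈ S ∧ ¬ OnProgression S l (Real.log ⌊x⌋₊ ^ B) x n}.ncard : ℝ) := by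
      have hfin : {n : ℕ | Between x n ∧ n ∈ S ∧ ¬ OnProgression S l (Real.log ⌊x⌋₊ ^ B) x n}.Finite := by
        apply (Set.finite_Iic (⌊x⌋₊ + Y)).subset
        rintro n ⟨hn, -⟩
        exact ((hY n).1 hn).2
      have hsub : {n : ℕ | Between x n ∧ n ∈ S ∧ ¬ OnProgression S l (Real.log x ^ B) x n} ⊆
          {n : ℕ | Between x n ∧ n ∈ S ∧ ¬ OnProgression S l (Real.log ⌊x⌋₊ ^ B) x n} := by
        rintro n ⟨g1, g2, g3⟩
        refine ⟨g1, g2, fun ⟨m, d, g4, g5, g6⟩ => g3 ⟨m, d, g4, g5.trans ?_, g6⟩⟩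
        exact pow_le_pow_left₀ (by linarith) hl2 B
      exact_mod_cast Set.ncard_le_ncard hsub hfin
    refine hmono.trans ?_
    rw [out_eq S l _ hY]
    rw [pow_one] at h1
    refine h1.trans ?_
    have hs : 2 ≤ √x := Real.le_sqrt_of_sq_le (by linarith)
    have hlx : 0 < Real.log x := by linarith
    rw [div_le_iff₀ (by linarith)]
    have e1 : ε * (√x / Real.log x) * Real.log ⌊x⌋₊ ≥ ε * (√x / Real.log x) * ((1 / 2) * Real.log x) :=
      mul_le_mul_of_nonneg_left hl1 (by positivity)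
    have e2 : ε * (√x / Real.log x) * ((1 / 2) * Real.log x) = ε * √x / 2 := by
      field_simp
    have e3 : ε / 4 * (Y : ℝ) ≤ ε / 4 * (2 * √x) := mul_le_mul_of_nonneg_left (by linarith) (by positivity)
    linarith
  refine ⟨?_, r0, fun r hr => ⟨key r hr, ?_⟩⟩
  · intro l hl ε hε
    obtain ⟨B, hB⟩ := key r0 le_rfl l hl ε hε
    refine ⟨B, ?_⟩
    filter_upwards [hB] with x hX S hS
    exact hX S (fun p hp => prime_rough r0 hr0 p (hS p hp))
  · obtain ⟨κ, hκ, h2⟩ := (h r hr).1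
    refine ⟨κ / 2, by positivity, ?_⟩
    filter_upwards [params, tendsto_nat_floor_atTop.eventually h2] with x hx hX
    obtain ⟨h4, hl1, hl2, hl3, hxY⟩ := hx
    obtain ⟨Y, hY1, hY2, hY⟩ := between_iff h4
    obtain ⟨hY3, hY4⟩ := hxY Y hY1 hY2
    have h3 := hX Y hY3 (by omega)
    rw [pow_one] at h3
    unfold Pool.Agent.TH977.PW.N at h3
    have hf2 : 2 ≤ ⌊x⌋₊ := Nat.le_floor (by push_cast; linarith)
    have h5 : {n : ℕ | Between x n ∧ Rough r n ∧ n.primeFactorsList.length ≤ r} =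
        (((Ioc ⌊x⌋₊ (⌊x⌋₊ + Y)).filter (fun m => m ∈ {n | 2 ≤ n → Rough r n ∧ n.primeFactorsList.length ≤ r}) :
          Finset ℕ) : Set ℕ) := by
      ext n
      rw [mem_coe, mem_filter, mem_Ioc]
      constructor
      · rintro ⟨g1, g2⟩
        exact ⟨(hY n).1 g1, fun _ => g2⟩
      · rintro ⟨g1, g2⟩
        exact ⟨(hY n).2 g1, g2 (by omega)⟩
    rw [h5, Set.ncard_coe_finset]
    have hs : 2 ≤ √x := Real.le_sqrt_of_sq_le (by linarith)
    have hlx : 0 < Real.log x := by linarith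
    calc κ / 2 * (√x / Real.log x) = κ * (√x / 2) / Real.log x := by ring
      _ ≤ κ * Y / Real.log x := by
        apply div_le_div_of_nonneg_right _ hlx.le
        exact mul_le_mul_of_nonneg_left (by linarith) hκ.le
      _ ≤ κ * Y / Real.log ⌊x⌋₊ := div_le_div_of_nonneg_left (by positivity) (by linarith) hl2
      _ ≤ _ := h3
      _ = _ := by
        norm_cast
        exact congrArg card (Finset.ext fun n => by simp only [mem_filter])

end Pool.Agent.Results.MP_b8a134_nt.NarrowProgressions
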