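import Pool.Agent.TH977.PW.Inst

set_option autoImplicit false

/-!
# Regular points of ARBITRARY sets of primes between `x` and `x + √x`

Let `S` be an ARBITRARY set of primes (for example the set of all primes), or of numbers without prime factors up to a
small power. For every large real `x` all but `ε √x / log x` of the elements of `S` in `(x, x + √x)` are regular points
of `S`: the numbers of elements of `S` in ALL intervals around the point whose ends are at distance at most `√x - 1` from it and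
whose length is at least `log x / c` have the conjectured order of magnitude, and `S` has constant density up to `δ` on both
sides of the point at all but `B (ε, δ)` dyadic scales.
-/

namespace Pool.Agent.Results.MP_b8a134_nt.RegularPoints

open Finset Filter

/-- `n` lies between `x` and `x + √x`, both excluded -/
def Between (x : ℝ) (n : ℕ) : Prop := x < n ∧ (n : ℝ) < x + √x

open Classical in
/-- the number of the elements of `S` in `(u, v]` -/
noncomputable def N (S : Set ℕ) (u v : ℕ) : ℕ := ((Ioc u v).filter (fun m => m ∈ S)).card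

/-- All intervals `(n - s, n + t]` with `s, t ≤ √x - 1` of length at least `log x / c` contain the right order of
elements of `S`. -/
def RightOrder (S : Set ℕ) (c x : ℝ) (n : ℕ) : Prop :=
  ∀ s t : ℕ, (s : ℝ) ≤ √x - 1 → (t : ℝ) ≤ √x - 1 → Real.log x ≤ c * (s + t) →
    c * (s + t) / Real.log x ≤ N S (n - s) (n + t) ∧ (N S (n - s) (n + t) : ℝ) ≤ (s + t) / (c * Real.log x)

/-- Up to `δ`, `S` has a constant density on both sides of `n` up to the distance `2 ^ j`. -/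
def ConstantDensity (S : Set ℕ) (c δ x : ℝ) (n j : ℕ) : Prop :=
  ∃ lam : ℝ, c ≤ lam ∧ lam ≤ 1 / c ∧ ∀ s t : ℕ, s ≤ 2 ^ j → t ≤ 2 ^ j →
    |(N S (n - s) (n + t) : ℝ) - lam * (s + t) / Real.log x| ≤ δ * 2 ^ j / Real.log x

/-- the number of the scales `log x ≤ 2 ^ j ≤ √x - 1` without this property -/
noncomputable def badScales (S : Set ℕ) (c δ x : ℝ) (n : ℕ) : ℕ :=
  {j : ℕ | Real.log x ≤ (2 : ℝ) ^ j ∧ (2 : ℝ) ^ j ≤ √x - 1 ∧ ¬ ConstantDensity S c δ x n j}.ncard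

/-- `n` is a regular point of `S` -/
def Regular (S : Set ℕ) (c δ : ℝ) (B : ℕ) (x : ℝ) (n : ℕ) : Prop :=
  RightOrder S c x n ∧ badScales S c δ x n ≤ B

/-- all prime factors of `n ≥ 2` are larger than `n ^ (1 / r)` -/
def Rough (r n : ℕ) : Prop :=
  2 ≤ n ∧ ∀ p : ℕ, p.Prime → p ∣ n → (n : ℝ) ^ (1 / (r : ℝ)) < p

section aux

/-- the integers between `x` and `x + √x` are those of `(⌊x⌋, ⌊x⌋ + Y]` -/
lemma between_iff {x : ℝ} (hx : 4 ≤ x) : ∃ Y : ℕ, √x - 1 ≤ Y ∧ (Y : ℝ) ≤ √x + 1 ∧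
    ∀ n : ℕ, Between x n ↔ ⌊x⌋₊ < n ∧ n ≤ ⌊x⌋₊ + Y := by
  have hx0 : 0 ≤ x := by linarith
  have hs : 2 ≤ √x := Real.le_sqrt_of_sq_le (by linarith)
  have h1 : (⌊x⌋₊ : ℝ) ≤ x := Nat.floor_le hx0
  have h2 : x < ⌊x⌋₊ + 1 := Nat.lt_floor_add_one x
  have h3 : x + √x ≤ ⌈x + √x⌉₊ := Nat.le_ceil _
  have h4 : (⌈x + √x⌉₊ : ℝ) < x + √x + 1 := Nat.ceil_lt_add_one (by positivity)
  have h5 : ⌊x⌋₊ + 1 ≤ ⌈x + √x⌉₊ := by
    have : ((⌊x⌋₊ + 1 : ℕ) : ℝ) ≤ (⌈x + √x⌉₊ : ℝ) := by push_cast; linarith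
    exact_mod_cast this
  refine ⟨⌈x + √x⌉₊ - 1 - ⌊x⌋₊, ?_, ?_, ?_⟩
  · rw [Nat.cast_sub (by omega), Nat.cast_sub (by omega)]
    push_cast
    linarith
  · rw [Nat.cast_sub (by omega), Nat.cast_sub (by omega)]
    push_cast
    linarith
  · intro n
    unfold Between
    rw [← Nat.floor_lt hx0]
    refine and_congr_right fun _ => ?_
    rw [← Nat.lt_ceil]
    omega

lemma prime_rough (r : ℕ) (hr : 2 ≤ r) (n : ℕ) (h : n.Prime) : Rough r n := by
  refine ⟨h.two_le, fun p hp hd => ?_⟩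
  have h1 : p = n := (Nat.prime_dvd_prime_iff_eq hp h).1 hd
  subst h1
  exact Pool.Agent.TH977.PW.rpow_lt_of_le r p p hr h.two_le le_rfl

lemma val (m : ℕ) : (((1 : ℕ) : ℤ) * (m : ℤ) + 0) = (m : ℤ) := by push_cast; ring

end aux

/-- the parameters -/
lemma params : ∀ᶠ x : ℝ in atTop, 4 ≤ x ∧ (1 / 2) * Real.log x ≤ Real.log ⌊x⌋₊ ∧ Real.log ⌊x⌋₊ ≤ Real.log x ∧
    1 ≤ Real.log ⌊x⌋₊ ∧ Real.log x - Real.log ⌊x⌋₊ ≤ 1 / ⌊x⌋₊ ∧
    (∀ Y : ℕ, √x - 1 ≤ Y → (Y : ℝ) ≤ √x + 1 → (⌊x⌋₊ : ℝ) ^ ((1 : ℝ) / 3) ≤ Y ∧ 2 * Y ≤ ⌊x⌋₊) := by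
  filter_upwards [eventually_ge_atTop (10 ^ 6 : ℝ)] with x hx
  have hx0 : 0 ≤ x := by linarith
  have h1 : (⌊x⌋₊ : ℝ) ≤ x := Nat.floor_le hx0
  have h2 : x < ⌊x⌋₊ + 1 := Nat.lt_floor_add_one x
  have hs : 1000 ≤ √x := Real.le_sqrt_of_sq_le (by norm_num; linarith)
  have hss : √x * √x = x := Real.mul_self_sqrt hx0
  have hf : √x ≤ ⌊x⌋₊ := by nlinarith
  have hfp : (0 : ℝ) < ⌊x⌋₊ := by linarith
  have hlog : Real.log (√x) = (1 / 2) * Real.log x := by
    rw [Real.log_sqrt hx0]; ring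
  refine ⟨by linarith, ?_, Real.log_le_log hfp h1, ?_, ?_, ?_⟩
  · rw [← hlog]
    exact Real.log_le_log (by linarith) hf
  · rw [Real.le_log_iff_exp_le hfp]
    have := Real.exp_one_lt_d9
    linarith
  · rw [← Real.log_div (by linarith) hfp.ne']
    have h3 := Real.log_le_sub_one_of_pos (x := x / ⌊x⌋₊) (by positivity)
    refine h3.trans ?_
    rw [div_sub_one hfp.ne']
    exact div_le_div_of_nonneg_right (by linarith) hfp.le
  · intro Y hY1 hY2
    constructor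
    · have h3 : (⌊x⌋₊ : ℝ) ^ ((1 : ℝ) / 3) ≤ x ^ ((1 : ℝ) / 3) :=
        Real.rpow_le_rpow hfp.le h1 (by norm_num)
      refine h3.trans (le_trans ?_ hY1)
      have h4 : x ^ ((1 : ℝ) / 3) = (√x) ^ ((2 : ℝ) / 3) := by
        rw [Real.sqrt_eq_rpow, ← Real.rpow_mul hx0]; norm_num
      rw [h4]
      have h5 : (√x) ^ ((2 : ℝ) / 3) = √x * (√x) ^ (-((1 : ℝ) / 3)) := by
        rw [← Real.rpow_one_add' (by linarith) (by norm_num)]; norm_num
      rw [h5]
      have h6 : (√x) ^ (-((1 : ℝ) / 3)) ≤ 1 / 10 := by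
        have h7 : (√x) ^ (-((1 : ℝ) / 3)) ≤ (1000 : ℝ) ^ (-((1 : ℝ) / 3)) :=
          Real.rpow_le_rpow_of_nonpos (by norm_num) hs (by norm_num)
        have h8 : (1000 : ℝ) ^ (-((1 : ℝ) / 3)) = 1 / 10 := by
          rw [show (1000 : ℝ) = (10 : ℝ) ^ (3 : ℝ) by norm_num, ← Real.rpow_mul (by norm_num)]
          norm_num
        linarith
      have h9 : √x * (√x) ^ (-((1 : ℝ) / 3)) ≤ √x * (1 / 10) := mul_le_mul_of_nonneg_left h6 (by linarith)
      linarith
    · have h3 : ((2 * Y : ℕ) : ℝ) ≤ (⌊x⌋₊ : ℝ) := by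
        push_cast
        nlinarith
      exact_mod_cast h3

lemma N_eq : N = Pool.Agent.TH977.PW.N := by
  funext A u v
  unfold N Pool.Agent.TH977.PW.N
  rfl

open Classical in
/-- regular points in the sense of the library are regular -/
lemma regular_of (S : Set ℕ) (c δ : ℝ) (hc : 0 < c) (hδ : 0 < δ) (B : ℕ) (x : ℝ) (n Y : ℕ)
    (hY1 : √x - 1 ≤ Y) (hl1 : (1 / 2) * Real.log x ≤ Real.log ⌊x⌋₊) (hl2 : Real.log ⌊x⌋₊ ≤ Real.log x)
    (hl3 : 1 ≤ Real.log ⌊x⌋₊) (hl4 : Real.log x - Real.log ⌊x⌋₊ ≤ 1 / ⌊x⌋₊) (hX : 4 / (c * δ) ≤ (⌊x⌋₊ : ℝ))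
    (h : Pool.Agent.TH977.PW.RightOrder S 1 c ⌊x⌋₊ Y n ∧
      Pool.Agent.TH977.PW.badScales S 1 c (δ / 4) ⌊x⌋₊ Y n ≤ B) : Regular S (c / 2) δ B x n := by
  obtain ⟨hR, hB⟩ := h
  obtain ⟨L, hL⟩ : ∃ L, L = Real.log x := ⟨_, rfl⟩
  obtain ⟨M, hM⟩ : ∃ M, M = Real.log ⌊x⌋₊ := ⟨_, rfl⟩
  rw [← hL, ← hM] at hl1 hl4 hl2
  rw [← hM] at hl3
  have hM0 : 0 < M := by linarith
  have hL0 : 0 < L := by linarith
  constructor
  · intro s t hs ht hst
    have hsY : s ≤ Y := by exact_mod_cast hs.trans hY1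
    have htY : t ≤ Y := by exact_mod_cast ht.trans hY1
    have hst0 : (0 : ℝ) ≤ s + t := by positivity
    have h1 := hR s t hsY htY (by
      rw [← hM, pow_one]
      rw [← hL] at hst
      nlinarith)
    rw [← hM, pow_one] at h1
    rw [N_eq, ← hL]
    refine ⟨le_trans ?_ h1.1, h1.2.trans ?_⟩
    · calc c / 2 * (s + t) / L ≤ c * (s + t) / L := by
            apply div_le_div_of_nonneg_right _ hL0.le
            nlinarith
        _ ≤ c * (s + t) / M := div_le_div_of_nonneg_left (by positivity) hM0 hl2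
    · apply div_le_div_of_nonneg_left hst0 (by positivity)
      nlinarith
  · refine le_trans ?_ hB
    unfold badScales Pool.Agent.TH977.PW.badScales
    rw [← Set.ncard_coe_finset]
    apply Set.ncard_le_ncard _ (Finset.finite_toSet _)
    rintro j ⟨hj1, hj2, hj3⟩
    rw [← hL] at hj1
    rw [mem_coe, mem_filter, mem_range, ← hM, pow_one]
    have hjY : 2 ^ j ≤ Y := by exact_mod_cast hj2.trans hY1
    refine ⟨?_, by linarith, fun hcd => hj3 ?_⟩
    · have := Nat.le_log_of_pow_le (by norm_num) hjY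
      omega
    · obtain ⟨lam, g1, g2, g3⟩ := hcd
      refine ⟨lam, by linarith, g2.trans ?_, ?_⟩
      · apply one_div_le_one_div_of_le (by positivity)
        linarith
      · intro s t hs ht
        have g4 := g3 s t hs ht
        rw [← hM, pow_one] at g4
        rw [N_eq, ← hL]
        have hst : ((s : ℝ) + t) ≤ 2 * 2 ^ j := by
          have e1 : (s : ℝ) ≤ 2 ^ j := by exact_mod_cast hs
          have e2 : (t : ℝ) ≤ 2 ^ j := by exact_mod_cast ht
          linarith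
        have hst0 : (0 : ℝ) ≤ s + t := by positivity
        have hlam : 0 < lam := by linarith
        have h2j : (0 : ℝ) < 2 ^ j := by positivity
        have hdiff : |lam * (s + t) / M - lam * (s + t) / L| ≤ (δ / 2) * 2 ^ j / L := by
          have hnn : 0 ≤ lam * (s + t) / M - lam * (s + t) / L := by
            rw [sub_nonneg]
            exact div_le_div_of_nonneg_left (by positivity) hM0 hl2
          rw [abs_of_nonneg hnn]
          have e3 : lam * (s + t) / M - lam * (s + t) / L = lam * (s + t) * ((L - M) / M) / L := by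
            field_simp
          rw [e3]
          apply div_le_div_of_nonneg_right _ hL0.le
          have hXp : (0 : ℝ) < ⌊x⌋₊ := lt_of_lt_of_le (by positivity) hX
          have e4 : (L - M) / M ≤ c * δ / 4 := by
            rw [div_le_iff₀ hM0]
            have e5 : 1 / (⌊x⌋₊ : ℝ) ≤ c * δ / 4 := by
              rw [div_le_iff₀ hXp]
              rw [div_le_iff₀ (by positivity)] at hX
              nlinarith
            have e6 : 0 < c * δ / 4 := by positivity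
            nlinarith
          have e7 : lam * (s + t) ≤ 1 / c * (2 * 2 ^ j) := by
            calc lam * (s + t) ≤ 1 / c * (s + t) := mul_le_mul_of_nonneg_right g2 hst0
              _ ≤ _ := mul_le_mul_of_nonneg_left hst (by positivity)
          calc lam * (s + t) * ((L - M) / M) ≤ lam * (s + t) * (c * δ / 4) :=
                mul_le_mul_of_nonneg_left e4 (by positivity)
            _ ≤ 1 / c * (2 * 2 ^ j) * (c * δ / 4) := mul_le_mul_of_nonneg_right e7 (by positivity)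
            _ = δ / 2 * 2 ^ j := by
              field_simp
              ring
        have g5 : δ / 4 * 2 ^ j / M ≤ (δ / 2) * 2 ^ j / L := by
          rw [div_le_div_iff₀ hM0 hL0]
          have : 0 < δ * 2 ^ j := by positivity
          nlinarith
        have g6 : |(Pool.Agent.TH977.PW.N S (n - s) (n + t) : ℝ) - lam * (s + t) / L| ≤
            |(Pool.Agent.TH977.PW.N S (n - s) (n + t) : ℝ) - lam * (s + t) / M| +
            |lam * (s + t) / M - lam * (s + t) / L| := abs_sub_le _ _ _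
        calc _ ≤ _ := g6
          _ ≤ (δ / 2) * 2 ^ j / L + (δ / 2) * 2 ^ j / L := add_le_add (g4.trans g5) hdiff
          _ = _ := by ring

/-- **Regular points between `x` and `x + √x`.** -/
theorem result :
    -- arbitrary sets of primes
    (∀ ε : ℝ, 0 < ε → ∃ c : ℝ, 0 < c ∧ ∀ δ : ℝ, 0 < δ → ∃ B : ℕ, ∀ᶠ x : ℝ in atTop,
      ∀ S : Set ℕ, (∀ p ∈ S, p.Prime) →
        ({p : ℕ | Between x p ∧ p ∈ S ∧ ¬ Regular S c δ B x p}.ncard : ℝ) ≤ ε * (√x / Real.log x)) ∧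
    -- arbitrary sets of numbers without small prime factors, and their number
    ∃ r₀ : ℕ, ∀ r : ℕ, r₀ ≤ r →
      (∀ ε : ℝ, 0 < ε → ∃ c : ℝ, 0 < c ∧ ∀ δ : ℝ, 0 < δ → ∃ B : ℕ, ∀ᶠ x : ℝ in atTop,
        ∀ S : Set ℕ, (∀ n ∈ S, Rough r n) →
          ({n : ℕ | Between x n ∧ n ∈ S ∧ ¬ Regular S c δ B x n}.ncard : ℝ) ≤ ε * (√x / Real.log x)) ∧
      ∃ κ : ℝ, 0 < κ ∧ ∀ᶠ x : ℝ in atTop, κ * (√x / Real.log x) ≤
        ({n : ℕ | Between x n ∧ Rough r n ∧ n.primeFactorsList.length ≤ r}.ncard : ℝ) := by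
  classical
  obtain ⟨r0, hr0, h⟩ := Pool.Agent.TH977.PW.final_lin (fun _ : Fin 1 => 1) (fun _ : Fin 1 => (0 : ℤ))
    (fun _ => one_pos) (fun _ => by rw [Nat.cast_one]; exact isCoprime_one_left)
    (fun _ _ _ _ => Subsingleton.elim _ _)
    (fun p hp => ⟨1, fun _ hd => by
      rw [val] at hd
      exact hp.one_lt.ne' (Nat.dvd_one.1 (by exact_mod_cast hd))⟩)
    (fun r => {n | Rough r n}) (fun r => {n | 2 ≤ n → Rough r n ∧ n.primeFactorsList.length ≤ r}) 1
    (by rw [Fintype.card_fin])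
    (fun r m _ hm _ p hp hd => by
      rw [val] at hd
      exact hm.2 p hp (by exact_mod_cast hd))
    (fun r m _ h1 h2 h3 => ⟨⟨h3, fun p hp hd => h1 0 p hp (by rw [val]; exact_mod_cast hd)⟩, by
      have := h2 0
      rw [val, Int.natAbs_natCast] at this
      exact this⟩) (1 / 3) (by norm_num) (by norm_num)
  have key : ∀ r : ℕ, r0 ≤ r → ∀ ε : ℝ, 0 < ε → ∃ c : ℝ, 0 < c ∧ ∀ δ : ℝ, 0 < δ → ∃ B : ℕ,
      ∀ᶠ x : ℝ in atTop, ∀ S : Set ℕ, (∀ n ∈ S, Rough r n) →
        ({n : ℕ | Between x n ∧ n ∈ S ∧ ¬ Regular S c δ B x n}.ncard : ℝ) ≤ ε * (√x / Real.log x) := by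
    intro r hr ε hε
    obtain ⟨c, hc, h2⟩ := (h r hr).2 (ε / 4) (by positivity)
    refine ⟨c / 2, by positivity, fun δ hδ => ?_⟩
    obtain ⟨B, hB⟩ := h2 (δ / 4) (by positivity)
    refine ⟨B, ?_⟩
    filter_upwards [params, tendsto_nat_floor_atTop.eventually hB,
      (tendsto_natCast_atTop_atTop.comp (tendsto_nat_floor_atTop (α := ℝ))).eventually_ge_atTop (4 / (c * δ))]
      with x hx hX hxc S hS
    obtain ⟨h4, hl1, hl2, hl3, hl4, hxY⟩ := hx
    obtain ⟨Y, hY1, hY2, hY⟩ := between_iff h4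
    obtain ⟨hY3, hY4⟩ := hxY Y hY1 hY2
    have h1 := hX Y hY3 hY4 S (fun n hn => hS n hn)
    have hmono : ({n : ℕ | Between x n ∧ n ∈ S ∧ ¬ Regular S (c / 2) δ B x n}.ncard : ℝ) ≤
        (Pool.Agent.TH977.PW.N (Pool.Agent.TH977.PW.Irregular S 1 c (δ / 4) B ⌊x⌋₊ Y) ⌊x⌋₊ (⌊x⌋₊ + Y) : ℝ) := by
      unfold Pool.Agent.TH977.PW.N
      rw [← Set.ncard_coe_finset]
      have hsub : {n : ℕ | Between x n ∧ n ∈ S ∧ ¬ Regular S (c / 2) δ B x n} ⊆
          (((Ioc ⌊x⌋₊ (⌊x⌋₊ + Y)).filter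
            (fun m => m ∈ Pool.Agent.TH977.PW.Irregular S 1 c (δ / 4) B ⌊x⌋₊ Y) : Finset ℕ) : Set ℕ) := by
        rintro n ⟨g1, g2, g3⟩
        rw [mem_coe, mem_filter, mem_Ioc]
        exact ⟨(hY n).1 g1, g2, fun g4 => g3 (regular_of S c δ hc hδ B x n Y hY1 hl1 hl2 hl3 hl4 hxc g4)⟩
      exact_mod_cast Set.ncard_le_ncard hsub (Finset.finite_toSet _)
    refine hmono.trans ?_
    rw [pow_one] at h1
    refine h1.trans ?_
    have hs : 2 ≤ √x := Real.le_sqrt_of_sq_le (by linarith)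
    have hlx : 0 < Real.log x := by linarith
    rw [div_le_iff₀ (by linarith)]
    have e1 : ε * (√x / Real.log x) * Real.log ⌊x⌋₊ ≥ ε * (√x / Real.log x) * ((1 / 2) * Real.log x) :=
      mul_le_mul_of_nonneg_left hl1 (by positivity)
    have e2 : ε * (√x / Real.log x) * ((1 / 2) * Real.log x) = ε * √x / 2 := by
      field_simp
    have e3 : ε / 4 * (Y : ℝ) ≤ ε / 4 * (2 * √x) := mul_le_mul_of_nonneg_left (by linarith) (by positivity)
    linarith
  refine ⟨?_, r0, fun r hr => ⟨key r hr, ?_⟩⟩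
  · intro ε hε
    obtain ⟨c, hc, h2⟩ := key r0 le_rfl ε hε
    refine ⟨c, hc, fun δ hδ => ?_⟩
    obtain ⟨B, hB⟩ := h2 δ hδ
    refine ⟨B, ?_⟩
    filter_upwards [hB] with x hX S hS
    exact hX S (fun p hp => prime_rough r0 hr0 p (hS p hp))
  · obtain ⟨κ, hκ, h2⟩ := (h r hr).1
    refine ⟨κ / 2, by positivity, ?_⟩
    filter_upwards [params, tendsto_nat_floor_atTop.eventually h2] with x hx hX
    obtain ⟨h4, hl1, hl2, hl3, hl4, hxY⟩ := hx
    obtain ⟨Y, hY1, hY2, hY⟩ := between_iff h4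
    obtain ⟨hY3, hY4⟩ := hxY Y hY1 hY2
    have h3 := hX Y hY3 (by omega)
    rw [pow_one] at h3
    unfold Pool.Agent.TH977.PW.N at h3
    have hf2 : 2 ≤ ⌊x⌋₊ := Nat.le_floor (by push_cast; linarith)
    have h5 : {n : ℕ | Between x n ∧ Rough r n ∧ n.primeFactorsList.length ≤ r} =
        (((Ioc ⌊x⌋₊ (⌊x⌋₊ + Y)).filter (fun m => m ∈ {n | 2 ≤ n → Rough r n ∧ n.primeFactorsList.length ≤ r}) :
          Finset ℕ) : Set ℕ) := by
      ext n
      rw [mem_coe, mem_filter, mem_Ioc]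
      constructor
      · rintro ⟨g1, g2⟩
        exact ⟨(hY n).1 g1, fun _ => g2⟩
      · rintro ⟨g1, g2⟩
        exact ⟨(hY n).2 g1, g2 (by omega)⟩
    rw [h5, Set.ncard_coe_finset]
    have hs : 2 ≤ √x := Real.le_sqrt_of_sq_le (by linarith)
    have hlx : 0 < Real.log x := by linarith
    calc κ / 2 * (√x / Real.log x) = κ * (√x / 2) / Real.log x := by ring
      _ ≤ κ * Y / Real.log x := by
        apply div_le_div_of_nonneg_right _ hlx.le
        exact mul_le_mul_of_nonneg_left (by linarith) hκ.le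
      _ ≤ κ * Y / Real.log ⌊x⌋₊ := div_le_div_of_nonneg_left (by positivity) (by linarith) hl2
      _ ≤ _ := h3
      _ = _ := by
        norm_cast
        exact congrArg card (Finset.ext fun n => by simp only [mem_filter])

end Pool.Agent.Results.MP_b8a134_nt.RegularPoints
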