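import Pool.Agent.Q44.Prog

/-!
# Progressions of almost primes on both sides of every `x`, within `√x`: the laws

Let `s ≥ 1`, `0 < θ`.  For a real `x ≥ 1` let `N` be the least integer `≥ x` without prime factors `≤ 2s`; then
`x ≤ N < x + (2s)! + 1`.  For EVERY large `x` call `m` good if none of the `2s` numbers `N ± m, N ± 2m, ..., N ± sm` has a prime
factor `≤ N ^ (1/r)` (for `sm < √x - (2s)! - 1` the `s` numbers `N + im` lie between `x` and `x + √x`).  In ALL intervals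
of length at least `N ^ θ` the numbers of the good `m` in windows follow the Poisson law and the gaps between the good
`m` are exponentially distributed, and almost all elements of an ARBITRARY set of good `m` (for instance of the `m` for
which all `2s` numbers are prime) are regular points of this set.
-/

set_option autoImplicit false

namespace Pool.Agent.Results.MP_b8a134_nt.SymmetricProgressionLaws

open Finset
open Pool.Agent.Q25.UReg (Good V count pois PoissonLaw GapLaw N RightOrder ConstantDensity badScales Irregular)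
open Pool.Agent.Q44.Prog (co ct)

/-- `n` has no prime factor `≤ 2s` -/
def Free (s n : ℕ) : Prop := ∀ p : ℕ, p.Prime → p ≤ 2 * s → ¬ p ∣ n

/-- near every real number there is an integer without prime factors `≤ 2s` -/
lemma exists_free (s : ℕ) (x : ℝ) (hx : 1 ≤ x) : ∃ n : ℕ, x ≤ n ∧ (n : ℝ) < x + (2 * s).factorial + 1 ∧ Free s n := by
  have hf : (0 : ℝ) < (2 * s).factorial := by exact_mod_cast Nat.factorial_pos _
  refine ⟨(2 * s).factorial * ⌈(x - 1) / (2 * s).factorial⌉₊ + 1, ?_, ?_, ?_⟩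
  · push_cast
    have h1 := Nat.le_ceil ((x - 1) / (2 * s).factorial)
    have h2 : x - 1 = (2 * s).factorial * ((x - 1) / (2 * s).factorial) := by field_simp
    have h3 := mul_le_mul_of_nonneg_left h1 hf.le
    linarith
  · push_cast
    have h1 := Nat.ceil_lt_add_one (div_nonneg (by linarith) hf.le : 0 ≤ (x - 1) / (2 * s).factorial)
    have h2 : x - 1 = (2 * s).factorial * ((x - 1) / (2 * s).factorial) := by field_simp
    have h3 := mul_lt_mul_of_pos_left h1 hf
    linarith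
  · intro p hp hps h
    have h1 : p ∣ (2 * s).factorial * ⌈(x - 1) / (2 * s).factorial⌉₊ := (Nat.dvd_factorial hp.pos hps).mul_right _
    have h2 := (Nat.dvd_add_right h1).1 h
    exact hp.one_lt.ne' (Nat.dvd_one.1 h2)

open Classical in
/-- the least integer `≥ x` without prime factors `≤ 2s` -/
noncomputable def next (s : ℕ) (x : ℝ) : ℕ := if h : ∃ n : ℕ, x ≤ n ∧ Free s n then Nat.find h else 0

lemma next_spec (s : ℕ) (x : ℝ) (hx : 1 ≤ x) :
    x ≤ next s x ∧ (next s x : ℝ) < x + (2 * s).factorial + 1 ∧ Free s (next s x) := by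
  classical
  obtain ⟨n, h1, h2, h3⟩ := exists_free s x hx
  have h : ∃ n : ℕ, x ≤ n ∧ Free s n := ⟨n, h1, h3⟩
  have e : next s x = Nat.find h := dif_pos h
  rw [e]
  refine ⟨(Nat.find_spec h).1, ?_, (Nat.find_spec h).2⟩
  have h4 : Nat.find h ≤ n := Nat.find_min' h ⟨h1, h3⟩
  have h5 : ((Nat.find h : ℕ) : ℝ) ≤ n := by exact_mod_cast h4
  linarith

lemma np {s n : ℕ} (h : Free s n) (p : ℕ) (hp : p.Prime) (hps : p ≤ 2 * s) : ¬ p ∣ n * n := by
  intro h1
  rcases (hp.dvd_mul).1 h1 with h2 | h2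
  · exact h p hp hps h2
  · exact h p hp hps h2

/-- **Progressions of almost primes on both sides of every `x`, within `√x`.** -/
theorem result (s : ℕ) (hs : 1 ≤ s) (θ : ℝ) (hθ : 0 < θ) :
    (∀ x : ℝ, 1 ≤ x → x ≤ next s x ∧ (next s x : ℝ) < x + (2 * s).factorial + 1) ∧
    (∀ (l₀ : ℕ) (x₀ ε : ℝ), 0 < ε → ∃ r₀ : ℕ, ∀ r : ℕ, r₀ ≤ r → ∃ x₁ : ℝ, ∀ x : ℝ, x₁ ≤ x →
      ∀ Z Y : ℕ, (next s x : ℝ) ^ θ ≤ Y →
        PoissonLaw (co s) (ct s (next s x) (next s x)) r (next s x) Z Y x₀ ε ∧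
        GapLaw (co s) (ct s (next s x) (next s x)) r (next s x) Z Y l₀ x₀ ε) ∧
    ∃ r₀ : ℕ, ∀ r : ℕ, r₀ ≤ r → ∀ ε : ℝ, 0 < ε → ∃ c : ℝ, 0 < c ∧ ∀ δ : ℝ, 0 < δ → ∃ B : ℕ, ∃ x₁ : ℝ,
      ∀ x : ℝ, x₁ ≤ x → ∀ w Y : ℕ, (next s x : ℝ) ^ θ ≤ Y → Y ≤ next s x → Y ≤ w →
        ∀ A : Set ℕ, (∀ m ∈ A, Good (co s) (ct s (next s x) (next s x)) r (next s x) m) →
          (N (Irregular A (V (co s) (ct s (next s x) (next s x)) r (next s x)) c δ B Y) w (w + Y) : ℝ) ≤
            ε * (Y * V (co s) (ct s (next s x) (next s x)) r (next s x)) := by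
  refine ⟨fun x hx => ⟨(next_spec s x hx).1, (next_spec s x hx).2.1⟩, ?_, ?_⟩
  · intro l₀ x₀ ε hε
    obtain ⟨r₀, h⟩ := Pool.Agent.Q44.Prog.laws s hs 1 (1 / 2) θ le_rfl (by norm_num) hθ l₀ x₀ ε hε
    refine ⟨r₀, fun r hr => ?_⟩
    obtain ⟨X₀, hX₀⟩ := h r hr
    refine ⟨max X₀ ((s : ℝ) ^ 2 + 1), fun x hx Z Y hY => ?_⟩
    have hx1 : 1 ≤ x := le_trans (by nlinarith [sq_nonneg (s : ℝ)]) ((le_max_right _ _).trans hx)
    obtain ⟨h1, -, h3⟩ := next_spec s x hx1
    have hX : X₀ ≤ next s x := by exact_mod_cast (le_max_left _ _).trans (hx.trans h1)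
    have hs2 : (s : ℝ) ^ 2 + 1 ≤ next s x := (le_max_right _ _).trans (hx.trans h1)
    refine hX₀ (next s x) hX (next s x) (next s x) (np h3) ?_ (by rw [Real.rpow_one]) (by rw [Real.rpow_one]) ?_ Z Y hY
    · have : (1 : ℝ) ≤ next s x := hx1.trans h1
      exact_mod_cast this
    · rw [← Real.sqrt_eq_rpow]
      have h5 : (0 : ℝ) < next s x := by linarith
      have h6 := Real.sq_sqrt h5.le
      have h7 : (s : ℝ) ≤ Real.sqrt (next s x) := by
        apply Real.le_sqrt_of_sq_le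
        linarith
      have h8 : 0 < Real.sqrt (next s x) := Real.sqrt_pos.2 h5
      nlinarith [mul_le_mul_of_nonneg_right h7 h8.le]
  · obtain ⟨r₀, h⟩ := Pool.Agent.Q44.Prog.reg s hs 1 θ le_rfl hθ
    refine ⟨r₀, fun r hr ε hε => ?_⟩
    obtain ⟨c, hc, h1⟩ := h r hr ε hε
    refine ⟨c, hc, fun δ hδ => ?_⟩
    obtain ⟨B, X₀, hB⟩ := h1 δ hδ
    refine ⟨B, max X₀ 1, fun x hx w Y hXY hYX hYu A hA => ?_⟩
    have hx1 : 1 ≤ x := (le_max_right _ _).trans hx
    obtain ⟨h1, -, h3⟩ := next_spec s x hx1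
    have hX : X₀ ≤ next s x := by exact_mod_cast (le_max_left _ _).trans (hx.trans h1)
    refine hB (next s x) hX (next s x) (next s x) (np h3) ?_ (by rw [Real.rpow_one]) (by rw [Real.rpow_one])
      w Y hXY hYX hYu A hA
    have : (1 : ℝ) ≤ next s x := hx1.trans h1
    exact_mod_cast this

end Pool.Agent.Results.MP_b8a134_nt.SymmetricProgressionLaws
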